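import Pool.Agent.HIP.Stmts

set_option autoImplicit false

/-!
# Squad HIP, row DET (helper91): the divisibility of a determinant
-/

namespace Pool.Agent.HIP.H91

open Finset

/-- the weights -/
def wt (n : ℕ) : Fin n ⊕ Fin n → ℕ := Sum.elim (fun k => (k : ℕ)) (fun _ => n)

theorem wt_sum (n : ℕ) (I : Finset (Fin n ⊕ Fin n)) (hI : I.card = n) :
    ∑ k ∈ range n, k ≤ ∑ x ∈ I, wt n x := by
  rw [← Finset.toLeft_disjSum_toRight (u := I), Finset.sum_disjSum, Finset.sum_range,
    ← Finset.sum_add_sum_compl I.toLeft (fun k : Fin n => (k : ℕ))]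
  refine Nat.add_le_add le_rfl ?_
  have h1 : I.toLeft.card + I.toRight.card = n := by
    rw [Finset.card_toLeft_add_card_toRight, hI]
  have h2 : (I.toLeftᶜ).card = I.toRight.card := by
    rw [Finset.card_compl, Fintype.card_fin]
    omega
  calc ∑ k ∈ I.toLeftᶜ, (k : ℕ) ≤ ∑ _k ∈ I.toLeftᶜ, n := Finset.sum_le_sum fun k _ => k.2.le
    _ = ∑ _k ∈ I.toRight, n := by rw [Finset.sum_const, Finset.sum_const, h2]
    _ = ∑ k ∈ I.toRight, wt n (Sum.inr k) := rfl

theorem wt_inj (n : ℕ) (f : Fin n → Fin n ⊕ Fin n) (hf : Function.Injective f) :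
    ∑ k ∈ range n, k ≤ ∑ j, wt n (f j) := by
  classical
  have h1 : ∑ x ∈ (univ : Finset (Fin n)).image f, wt n x = ∑ j, wt n (f j) :=
    Finset.sum_image fun a _ b _ h => hf h
  rw [← h1]
  refine wt_sum n _ ?_
  rw [Finset.card_image_of_injective _ hf, Finset.card_univ, Fintype.card_fin]

/-- DET -/
theorem det : DetStmt := by
  intro R _ n p b A c h
  classical
  choose e he using h
  let v : Fin n ⊕ Fin n → (Fin n → R) :=
    Sum.elim (fun k i => b i ^ (k : ℕ)) (fun l => Pi.single l 1)
  let N : Fin n ⊕ Fin n → Fin n → R :=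
    Sum.elim (fun k j => p ^ (k : ℕ) * c j k) (fun l j => p ^ n * e l j)
  have hN : ∀ m j, p ^ wt n m ∣ N m j := by
    rintro (k | l) j
    · exact ⟨c j k, rfl⟩
    · exact ⟨e l j, rfl⟩
  have hA : ∀ j, A.transpose j = ∑ m, N m j • v m := by
    intro j
    funext i
    rw [Matrix.transpose_apply, Finset.sum_apply, Fintype.sum_sum_type]
    have h1 : ∑ k : Fin n, (N (Sum.inl k) j • v (Sum.inl k)) i =
        ∑ k ∈ range n, c j k * (p * b i) ^ k := by
      rw [Finset.sum_range]
      refine Finset.sum_congr rfl fun k _ => ?_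
      show (p ^ (k : ℕ) * c j k) * b i ^ (k : ℕ) = _
      rw [mul_pow]
      ring
    have h2 : ∑ l : Fin n, (N (Sum.inr l) j • v (Sum.inr l)) i = p ^ n * e i j := by
      rw [Finset.sum_eq_single i]
      · show (p ^ n * e i j) * (Pi.single i (1 : R) : Fin n → R) i = _
        rw [Pi.single_eq_same, mul_one]
      · intro l _ hl
        show (p ^ n * e l j) * (Pi.single l (1 : R) : Fin n → R) i = _
        rw [Pi.single_eq_of_ne (Ne.symm hl), mul_zero]
      · intro hh
        exact absurd (mem_univ _) hh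
    rw [h1, h2, ← he i j]
    ring
  have hdet : A.det = ∑ f : Fin n → Fin n ⊕ Fin n,
      (∏ j, N (f j) j) • Matrix.detRowAlternating (fun j => v (f j)) := by
    rw [← Matrix.det_transpose]
    show Matrix.detRowAlternating (fun j => A.transpose j) = _
    rw [show (fun j => A.transpose j) = fun j => ∑ m, N m j • v m from funext hA]
    have h1 := (Matrix.detRowAlternating (n := Fin n) (R := R)).toMultilinearMap.map_sum
      (fun (j : Fin n) (m : Fin n ⊕ Fin n) => N m j • v m)
    refine h1.trans (Finset.sum_congr rfl fun f _ => ?_)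
    exact (Matrix.detRowAlternating (n := Fin n) (R := R)).toMultilinearMap.map_smul_univ
      (fun j => N (f j) j) (fun j => v (f j))
  rw [hdet]
  refine Finset.dvd_sum fun f _ => ?_
  by_cases hf : Function.Injective f
  · rw [smul_eq_mul]
    refine Dvd.dvd.mul_right ?_ _
    refine (pow_dvd_pow p (wt_inj n f hf)).trans ?_
    rw [← Finset.prod_pow_eq_pow_sum]
    exact Finset.prod_dvd_prod_of_dvd _ _ fun j _ => hN (f j) j
  · have h1 : Matrix.detRowAlternating (fun j => v (f j)) = 0 := by
      apply AlternatingMap.map_eq_zero_of_not_injective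
      intro hi
      apply hf
      intro a a' haa
      exact hi (by simp only [haa])
    rw [h1, smul_zero]
    exact dvd_zero _

end Pool.Agent.HIP.H91
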